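import Mathlib

/-!
# Trace bounds for banded Toeplitz-Hessenberg substochastic matrices: a counterexample

The doubly stochastic circulant matrix `1/3 + (2/3) (1 2 3)` with `n = 3` and `k = 2` has
`Tr A = 1`, `Tr A ^ 2 = 1 / 3`, `Tr A ^ 3 = 1` and `Tr A ^ 4 = 11 / 9`.
-/

set_option autoImplicit false

namespace Pool.Agent.Results.MP_e73184_al.TraceCounterexample

open Matrix

/-- `A` is admissible for `k`: nonnegative entries, row and column sums at most `1`, upper
bandwidth `1`, lower bandwidth `k`, and constant diagonals `c 0, …, c k` in the lower band. -/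
def Admissible (n k : ℕ) (A : Matrix (Fin n) (Fin n) ℝ) : Prop :=
  (∀ i j, 0 ≤ A i j) ∧ (∀ j, ∑ i, A i j ≤ 1) ∧ (∀ i, ∑ j, A i j ≤ 1) ∧
  (∀ i j : Fin n, i.val + 2 ≤ j.val → A i j = 0) ∧
  (∀ i j : Fin n, j.val + k < i.val → A i j = 0) ∧
  ∃ c : ℕ → ℝ, (∀ l, 0 ≤ c l) ∧
    ∀ i j : Fin n, ∀ l, l ≤ k → i.val = j.val + l → A i j = c l

/-- The matrix of the counterexample. -/
noncomputable def A : Matrix (Fin 3) (Fin 3) ℝ := !![1/3, 2/3, 0; 0, 1/3, 2/3; 2/3, 0, 1/3]

theorem admissible : Admissible 3 2 A := by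
  refine ⟨?_, ?_, ?_, ?_, ?_, fun l => if l = 0 then 1/3 else if l = 2 then 2/3 else 0, ?_, ?_⟩
  · intro i j
    fin_cases i <;> fin_cases j <;> simp [A] <;> norm_num
  · intro j
    fin_cases j <;> simp [A, Fin.sum_univ_three] <;> norm_num
  · intro i
    fin_cases i <;> simp [A, Fin.sum_univ_three] <;> norm_num
  · intro i j h
    fin_cases i <;> fin_cases j <;> simp [A] at h ⊢
  · intro i j h
    fin_cases i <;> fin_cases j <;> simp at h
  · intro l
    dsimp only
    split_ifs <;> norm_num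
  · intro i j l hl h
    have hl' : l = 0 ∨ l = 1 ∨ l = 2 := by omega
    rcases hl' with rfl | rfl | rfl <;> fin_cases i <;> fin_cases j <;> simp [A] at h ⊢

theorem A_sq : A ^ 2 = !![1/9, 4/9, 4/9; 4/9, 1/9, 4/9; 4/9, 4/9, 1/9] := by
  rw [sq, A]
  ext i j
  fin_cases i <;> fin_cases j <;> simp [Matrix.mul_apply, Fin.sum_univ_three] <;> norm_num

theorem A_cube : A ^ 3 = !![1/3, 2/9, 4/9; 4/9, 1/3, 2/9; 2/9, 4/9, 1/3] := by
  rw [pow_succ, A_sq, A]
  ext i j
  fin_cases i <;> fin_cases j <;> simp [Matrix.mul_apply, Fin.sum_univ_three] <;> norm_num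

theorem trace_four : (A ^ 4).trace = 11 / 9 := by
  rw [pow_succ, A_cube, A]
  simp [Matrix.trace, Fin.sum_univ_three]
  norm_num

/-- There are an admissible matrix with `Tr A ^ l ≤ 1` for `1 ≤ l ≤ k + 1` and an `m > k + 1` with
`Tr A ^ m > 1`. -/
theorem result : ∃ (n k : ℕ) (A : Matrix (Fin n) (Fin n) ℝ), Admissible n k A ∧
    (∀ l, 1 ≤ l → l ≤ k + 1 → (A ^ l).trace ≤ 1) ∧ ∃ m, k + 1 < m ∧ 1 < (A ^ m).trace := by
  refine ⟨3, 2, A, admissible, ?_, 4, by norm_num, ?_⟩
  · intro l h1 h2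
    interval_cases l
    · rw [pow_one, A]
      simp [Matrix.trace, Fin.sum_univ_three]
      norm_num
    · rw [A_sq]
      simp [Matrix.trace, Fin.sum_univ_three]
      norm_num
    · rw [A_cube]
      simp [Matrix.trace, Fin.sum_univ_three]
      norm_num
  · rw [trace_four]
    norm_num

end Pool.Agent.Results.MP_e73184_al.TraceCounterexample
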